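import Pool.Agent.Helper64.FC.Main

/-!
# MP_075f54_gt, Q1: there is no upper bound `r_max(m) ≤ C / √(∑ m_i ^ 2)`

We disprove the bound: for every real `C` there is a multiset `m` of integers `≥ 2` with
`r_max(m) > C / √(∑ m_i ^ 2)`.

Idea of the proof. We look at tori of configurations of unit disks in a disk of radius `ρ`, in
which the disks form clusters `i` of sizes `m_i`, and the direction from the `l`-th to the
`(l + 1)`-st disk of a cluster is prescribed (up to less than a quarter turn) by its own
coordinate of the torus. Such a torus detects `ω_G`, for `G` the forest of paths of sizes `m_i`.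
Given such tori for smaller disks, put two of them in the two half-size disks tangent at the
centre, let the whole picture rotate and join the two distinguished clusters to one cluster, whose
size is then the sum. The rest of the area (half of it) is filled, up to a small error, by finitely
many disjoint disks with a similar structure. If the distinguished cluster has size about `ρ` and
`∑ m_i ^ 2` is about `s ρ ^ 2`, the new sum of squares is about
`ρ ^ 2 + s ρ ^ 2 - (1 + 1) (ρ / 2) ^ 2 = (s + 1 / 2) ρ ^ 2`.
Iterating, the ratio `(∑ m_i ^ 2) / ρ ^ 2` is unbounded.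
-/

set_option autoImplicit false

namespace Pool.Agent.Results.MP_075f54_gt.Disproof

open Pool.Agent.Helper64.FC

/-- There is no constant `C` such that `r_max(m) ≤ C / √(∑ m_i ^ 2)` for every nonempty finite
multiset `m` of integers `≥ 2`. -/
theorem result : ¬ ∃ C : ℝ, ∀ m : Multiset ℕ, m ≠ 0 → (∀ i ∈ m, 2 ≤ i) →
    rMax m ≤ C / √((m.map fun i : ℕ => (i : ℝ) ^ 2).sum) := by
  rintro ⟨C, hC⟩
  obtain ⟨m, h0, h2, _, hlt⟩ := main C
  exact absurd (hC m h0 h2) (not_le.2 hlt)

end Pool.Agent.Results.MP_075f54_gt.Disproof
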